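import Pool.Agent.Helper5.KPA.StP

/-!
# Project KP, module AFI: final assembly of `StALG`
-/

set_option autoImplicit false

namespace Pool.Agent.Helper78.KPA

open Pool.Agent.Helper5.KPA Pool.Agent.Helper52.KP MvPolynomial

/-- numbers: expansion of the total weight -/
private theorem num_w {m : ℕ} (hm : 2 ≤ m) {B N w : ℕ → ℝ} {α γ a₀ a₁ : ℝ}
    (hB : Asy m B α γ) (hN : Asy (m - 1) N a₀ a₁) (hw : ∀ k, B k = N k + w k) :
    Asy m w α (γ - a₀) := by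
  obtain ⟨K1, h1⟩ := hB
  obtain ⟨K2, h2⟩ := hN
  refine ⟨|K1| + |K2| + |a₁|, fun k hk => ?_⟩
  have hk' : (1 : ℝ) ≤ k := by exact_mod_cast hk
  have hk0 : (0 : ℝ) < k := by linarith
  have e2 : m - 1 - 1 = m - 2 := by omega
  have hp2 : (k : ℝ) ^ m = (k : ℝ) ^ (m - 2) * (k : ℝ) ^ 2 := by
    rw [← pow_add]
    congr 1
    omega
  have hp1 : (k : ℝ) ^ (m - 1) ≤ (k : ℝ) ^ m := pow_le_pow_right₀ hk' (by omega)
  have hpos : 0 < (k : ℝ) ^ m := by positivity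
  have hpos1 : 0 < (k : ℝ) ^ (m - 1) := by positivity
  have g1 := h1 k hk
  have g2 := h2 k hk
  rw [e2] at g2
  have e3 : w k - (α * (k : ℝ) ^ m + (γ - a₀) * (k : ℝ) ^ (m - 1)) =
      (B k - (α * (k : ℝ) ^ m + γ * (k : ℝ) ^ (m - 1))) -
        (N k - (a₀ * (k : ℝ) ^ (m - 1) + a₁ * (k : ℝ) ^ (m - 2))) - a₁ * (k : ℝ) ^ (m - 2) := by
    rw [hw k]
    ring
  have e4 : |w k - (α * (k : ℝ) ^ m + (γ - a₀) * (k : ℝ) ^ (m - 1))| ≤
      |B k - (α * (k : ℝ) ^ m + γ * (k : ℝ) ^ (m - 1))| +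
        |N k - (a₀ * (k : ℝ) ^ (m - 1) + a₁ * (k : ℝ) ^ (m - 2))| + |a₁| * (k : ℝ) ^ (m - 2) := by
    rw [e3]
    refine (abs_sub _ _).trans ?_
    refine add_le_add (abs_sub _ _) ?_
    rw [abs_mul, abs_of_nonneg (by positivity : 0 ≤ (k : ℝ) ^ (m - 2))]
  have e5 := mul_le_mul_of_nonneg_right e4 (by positivity : 0 ≤ (k : ℝ) ^ 2)
  rw [add_mul, add_mul, mul_assoc |a₁|, ← hp2] at e5
  have e6 : K1 * (k : ℝ) ^ m ≤ |K1| * (k : ℝ) ^ m :=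
    mul_le_mul_of_nonneg_right (le_abs_self _) hpos.le
  have e7 : K2 * (k : ℝ) ^ (m - 1) ≤ |K2| * (k : ℝ) ^ m :=
    (mul_le_mul_of_nonneg_right (le_abs_self K2) hpos1.le).trans
      (mul_le_mul_of_nonneg_left hp1 (abs_nonneg _))
  rw [add_mul, add_mul]
  linarith

/-- numbers: first order from second order -/
private theorem num_z {e : ℕ} (he : 1 ≤ e) {N : ℕ → ℝ} {a₀ a₁ : ℝ} (hN : Asy e N a₀ a₁) :
    Asz e N a₀ := by
  obtain ⟨K, h⟩ := hN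
  refine ⟨|K| + |a₁|, fun k hk => ?_⟩
  have hk' : (1 : ℝ) ≤ k := by exact_mod_cast hk
  have hk0 : (0 : ℝ) < k := by linarith
  have hp : (k : ℝ) ^ e = (k : ℝ) ^ (e - 1) * k := by
    rw [← pow_succ]
    congr 1
    omega
  have hpos : 0 < (k : ℝ) ^ e := by positivity
  have g := h k hk
  have e4 : |N k - a₀ * (k : ℝ) ^ e| ≤
      |N k - (a₀ * (k : ℝ) ^ e + a₁ * (k : ℝ) ^ (e - 1))| + |a₁| * (k : ℝ) ^ (e - 1) := by
    have e3 : N k - a₀ * (k : ℝ) ^ e = (N k - (a₀ * (k : ℝ) ^ e + a₁ * (k : ℝ) ^ (e - 1))) +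
        a₁ * (k : ℝ) ^ (e - 1) := by ring
    rw [e3]
    refine (abs_add_le _ _).trans ?_
    rw [abs_mul a₁, abs_of_nonneg (by positivity : 0 ≤ (k : ℝ) ^ (e - 1))]
  have e5 := mul_le_mul_of_nonneg_right e4 hk0.le
  rw [add_mul, mul_assoc |a₁|, ← hp] at e5
  have e6 : |N k - (a₀ * (k : ℝ) ^ e + a₁ * (k : ℝ) ^ (e - 1))| * k ≤
      |N k - (a₀ * (k : ℝ) ^ e + a₁ * (k : ℝ) ^ (e - 1))| * (k : ℝ) ^ 2 :=
    mul_le_mul_of_nonneg_left (by nlinarith) (abs_nonneg _)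
  have e7 : K * (k : ℝ) ^ e ≤ |K| * (k : ℝ) ^ e :=
    mul_le_mul_of_nonneg_right (le_abs_self _) hpos.le
  rw [add_mul]
  linarith

/-- numbers: upper bound from the expansion -/
private theorem num_u {m : ℕ} (hm : 2 ≤ m) {D E : ℕ → ℝ} {α γ : ℝ} (hE : Asy m E α (-γ))
    (hD : ∀ k, 1 ≤ k → D k ≤ E k) :
    ∃ K : ℝ, ∀ k : ℕ, 1 ≤ k →
      D k ≤ α * (k : ℝ) ^ m - γ * (k : ℝ) ^ (m - 1) + K * (k : ℝ) ^ (m - 2) := by
  obtain ⟨K, h⟩ := hE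
  refine ⟨K, fun k hk => (hD k hk).trans ?_⟩
  have hk' : (1 : ℝ) ≤ k := by exact_mod_cast hk
  have hk0 : (0 : ℝ) < k := by linarith
  have hp2 : (k : ℝ) ^ m = (k : ℝ) ^ (m - 2) * (k : ℝ) ^ 2 := by
    rw [← pow_add]
    congr 1
    omega
  have g := h k hk
  have g1 : |E k - (α * (k : ℝ) ^ m + -γ * (k : ℝ) ^ (m - 1))| ≤ K * (k : ℝ) ^ (m - 2) := by
    have g2 : K * (k : ℝ) ^ m = (K * (k : ℝ) ^ (m - 2)) * (k : ℝ) ^ 2 := by
      rw [hp2]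
      ring
    rw [g2] at g
    exact le_of_mul_le_mul_right g (by positivity)
  have g3 := (abs_le.1 g1).2
  linarith

theorem hAFI : StAFI := by
  intro hAGR hABK hANN hAGL hATD hADU hTFB hAVL hCOP hARF hMVV hMSU hMGU hMIJ hMTE hMLO hMLS hMNU
    hMTG hMRA hMRC hMRN
  intro C hC r F hF
  have hr : 0 < r := hF.hr
  have hrR : (0 : ℝ) < r := by exact_mod_cast hr
  have hm : C.m = 2 * C.n := hC.hm
  have hn : 0 < C.n := hC.hn
  have hm2 : 2 ≤ C.m := by omega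
  obtain ⟨gB, gR, -, -⟩ := hAGR C hC r F hF
  obtain ⟨hT1, hT2⟩ := hATD C hC r F hF
  -- Noether normalizations
  obtain ⟨e, a, ha⟩ := hANN (QQ C.m) (BB F) gB
  have he := hT1 e a ha
  subst he
  obtain ⟨e', a', ha'⟩ := hANN (MvPolynomial (Fin C.m) ℂ) (RD C r) gR
  have he' := hT2 e' a' ha'
  obtain ⟨e1, he1⟩ : ∃ e1, e' = e1 + 1 := ⟨e' - 1, by omega⟩
  subst he1
  have he1m : e1 = C.m - 1 := by omega
  -- Hilbert functions
  obtain ⟨hfd, α, γ, hα, hA1, hA2⟩ := hADU C.m (QQ C.m) (ac a) (BB F) (by omega)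
    (hAGL (QQ C.m) (BB F) gB C.m a ha)
  obtain ⟨-, a₀, a₁, ha₀, hB1, hB2⟩ := hADU e1 (MvPolynomial (Fin C.m) ℂ) (ac a') (RD C r)
    (by omega) (hAGL (MvPolynomial (Fin C.m) ℂ) (RD C r) gR e1 a' ha')
  have hARF' : ∀ M, M = C.m → ∀ a : Fin M → MvPolynomial (Fin C.m) ℂ, NN (RD C r) a → ∀ k, 1 ≤ k →
      Module.finrank ℂ (Dl (ac a) (RD C r) k) ≤ Module.finrank ℂ (C.R (C.n * r * k - C.n)) := by
    rintro M rfl a ha
    exact hARF C hC r F hF a ha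
  have hNm := hB1
  rw [he1m] at hNm
  have hw : Asy C.m (wF F) α (γ - a₀) := num_w hm2 hA1 hNm (hABK C hC r F hF)
  have hz : Asz (C.m - 1) (fun k => (Module.finrank ℂ (RD C r k) : ℝ)) a₀ :=
    num_z (by omega) hNm
  -- the inequality for `R`
  have hR : (e1 : ℝ) * a₀ / r ≤ 2 * a₁ := by
    refine hMRN e1 r a₀ a₁ (fun k => (Module.finrank ℂ (Dl (ac a') (RD C r) k) : ℝ))
      (fun k => (Module.finrank ℂ (RD C r k) : ℝ)) (by omega) hr hB1 hB2 fun k hk => ?_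
    refine le_trans ?_ (hMRC C hC r F hF k hk)
    exact_mod_cast hARF' (e1 + 1) he' a' ha' k hk
  have he1R : (e1 : ℝ) = (C.m : ℝ) - 1 := by
    have : (C.m : ℝ) = (e1 : ℝ) + 1 := by exact_mod_cast he'.symm
    linarith
  refine ⟨a₀, a₁, α, γ - a₀, ha₀, ?_, ?_⟩
  · -- the expansions
    obtain ⟨K1, h1⟩ := hNm
    obtain ⟨K2, h2⟩ := hw
    refine ⟨max K1 K2, fun k hk => ?_⟩
    have g1 := h1 k hk
    have g2 := h2 k hk
    have i1 : C.m - 1 = 2 * C.n - 1 := by omega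
    have i2 : C.m - 1 - 1 = 2 * C.n - 2 := by omega
    rw [i2, i1] at g1
    have hp : (k : ℝ) ^ C.m = (k : ℝ) ^ (2 * C.n) := congrArg (fun e => (k : ℝ) ^ e) hm
    rw [i1, hp] at g2
    refine ⟨g1.trans ?_, g2.trans ?_⟩
    · exact mul_le_mul_of_nonneg_right (le_max_left _ _) (by positivity)
    · exact mul_le_mul_of_nonneg_right (le_max_right _ _) (by positivity)
  · intro ℓ hℓ
    obtain ⟨h, v, b, hVD⟩ := hAVL C hC r F hF
    obtain ⟨δ, u, hGU⟩ := hMGU C hC r F hF h v b hVD ℓ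
    obtain ⟨κ, hδκ, hIJ⟩ := hMIJ C hC r F hF h v b hVD ℓ δ u hGU
    have hD0 : (fun k => dM C r v u 0 k) = fun k => (Module.finrank ℂ (BB F k) : ℝ) := by
      funext k
      unfold dM
      rw [(hMSU C hC r F hF h v b hVD u 0 k (Nat.zero_le _)).2.2]
    have hD1 : ∀ k, 1 ≤ k → dM C r v u 1 k ≤ (Module.finrank ℂ (Dl (ac a) (BB F) k) : ℝ) := by
      intro k hk
      unfold dM
      have := (hTFB C hC r F hF a ha hfd ℓ hℓ k (MM C r v u 1 k) hk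
        (hMTG C hC r F hF h v b hVD ℓ δ u hGU k hk)).2
      exact_mod_cast this
    have hup := hMTE C.m α γ δ κ r (fun p k => dM C r v u p k) hm2 hr hδκ
      (by rw [hD0]; exact hA1) (num_u hm2 hA2 hD1) hIJ
    have hup' : ∀ p : ℕ, ∃ (K : ℝ) (k₀ : ℕ), ∀ k : ℕ, k₀ ≤ k → dM C r v u p k ≤
        α * (k : ℝ) ^ C.m + (1 - 2 * (p : ℝ)) * ((γ - a₀) + a₀) * (k : ℝ) ^ (C.m - 1) +
          K * (k : ℝ) ^ (C.m - 2) := by
      intro p
      obtain ⟨K, k₀, hK⟩ := hup p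
      refine ⟨K, k₀, fun k hk => ?_⟩
      have := hK k hk
      rw [sub_add_cancel]
      exact this
    have hN0 : 2 * (γ - a₀) + 0 / r ≤ (C.m : ℝ) * α / r - ℓ * a₀ := by
      refine hMNU C.m r a₀ α (γ - a₀) ℓ 0 (fun p k => dM C r v u p k) (wF F)
        (fun k => (Module.finrank ℂ (RD C r k) : ℝ)) hm2 hr hup' hw hz fun q => ?_
      refine ⟨q, fun k hk => ?_⟩
      rw [zero_mul, zero_mul, add_zero]
      exact hMLO C hC r F hF h v b hVD ℓ δ u hGU q k hk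
    rw [zero_div, add_zero] at hN0
    have hs1 : 0 ≤ α * (2 * a₁ - (e1 : ℝ) * a₀ / r) := mul_nonneg hα.le (by linarith)
    have hs2 : 0 ≤ a₀ * ((C.m : ℝ) * α / r - ℓ * a₀ - 2 * (γ - a₀)) :=
      mul_nonneg ha₀.le (by linarith)
    have hid : 2 * (a₁ * α - a₀ * (γ - a₀)) - a₀ * (ℓ * a₀ - α / r) =
        α * (2 * a₁ - (e1 : ℝ) * a₀ / r) +
          a₀ * ((C.m : ℝ) * α / r - ℓ * a₀ - 2 * (γ - a₀)) := by
      rw [he1R]
      field_simp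
      ring
    refine ⟨by linarith, fun heq => ?_⟩
    have hz2 : a₀ * ((C.m : ℝ) * α / r - ℓ * a₀ - 2 * (γ - a₀)) = 0 := by linarith
    have hz3 : (C.m : ℝ) * α / r - ℓ * a₀ - 2 * (γ - a₀) = 0 :=
      (mul_eq_zero.1 hz2).resolve_left ha₀.ne'
    refine hMRA C hC r F hF h v b hVD fun i => ?_
    have hb1 := hVD.bpos i
    by_contra hne
    obtain ⟨κ', hκ', hLS⟩ := hMLS C hC r F hF h v b hVD ℓ δ u hGU i (by omega)
    have hN1 : 2 * (γ - a₀) + κ' / r ≤ (C.m : ℝ) * α / r - ℓ * a₀ :=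
      hMNU C.m r a₀ α (γ - a₀) ℓ κ' (fun p k => dM C r v u p k) (wF F)
        (fun k => (Module.finrank ℂ (RD C r k) : ℝ)) hm2 hr hup' hw hz hLS
    have : 0 < κ' / r := div_pos hκ' hrR
    linarith

end Pool.Agent.Helper78.KPA
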